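import Pool.Agent.Helper78.DD.Final

/-!
# Everywhere dense 3-colourings of two small discs at unit distance have only wild classes

The proof: let `X`, `Y`, `Z` be the classes, and let `A ⊆ X` be measurable with positive measure, near a
point `x0` of the left disc.  Choose `p ∈ Y` and `p' ∈ Z` a little below `x0`.  If `y = p + e φ` (a point of the
right disc on the unit circle around `p`) is in `X`, then the unit circle around `y` avoids `A`.  In the
coordinates `(φ, τ)`, `x = p + e φ - e τ`, these circles are lines, so by the Lebesgue density theorem (Fubini)
the set of these `φ` has small density at the angle of `x0`, and the same holds for `p'`.  Let now `l ∈ X` be very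
close to `x0 + 1`.  Every point `x = l - e σ`, `|σ| < s`, has the neighbour `l ∈ X`, so `x ∉ X`; the common
neighbour `y` of `x` and `p` is not in `Y`, and if it is not in `X` then it is in `Z` and `x ∈ Y`; in the same way
`x ∈ Z` if the common neighbour of `x` and `p'` is not in `X`.  Hence every `σ` is in one of two sets of small
density, a contradiction.
-/

namespace Pool.Agent.Results.MP_f72329_co.TameColourings

open Pool.Agent.Helper78.DD

/-- For every `0 < ε < 1 / 2`, `4` is the least number of colours of a proper everywhere dense colouring of
`P ε` such that at least one colour class contains a Lebesgue measurable set of positive measure or a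
non-meagre set with the property of Baire, and also the least number of colours of one all of whose classes
are Borel sets. -/
theorem result {ε : ℝ} (h0 : 0 < ε) (h1 : ε < 1 / 2) :
    IsLeast {k : ℕ | ∃ c : P ε → Fin k, IsED (P ε) c ∧ ∃ i, ¬ Wild (cls c i)} 4 ∧
      IsLeast {k : ℕ | ∃ c : P ε → Fin k, IsED (P ε) c ∧ ∀ i, MeasurableSet (cls c i)} 4 :=
  final_main h0 h1

end Pool.Agent.Results.MP_f72329_co.TameColourings
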